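import Pool.Agent.P.MP_6e3a57_lc.H.NonIso2

/-!
An infinite family of parameters with different invariants.
-/

namespace Pool.Agent.P.MP_6e3a57_lc.H

open Pool.Agent.P.MP_6e3a57_lc

/-- The letter with no chosen elements. -/
def le0 : ℤ →+ Let Empty := AddMonoidHom.inl ℤ (Empty → ℤ)

/-- A function with given end values, labels and invariant. -/
structure Good (b : ℤ) (D : ℕ) (f : Pt → ℤ) (σ : ℕ → ℤ × ℤ) (a c : ℤ) (τ : ℕ → ℤ × ℤ) (w : ℤ) :
    Prop where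
  pl : PL f
  low : ∀ z : Pt, b * ((z.1 : ℤ) + z.2) ≤ D * f z ∧ 0 ≤ f z
  s : f (1, 0) = a
  e : f (0, 1) = c
  w : HasW (red ∘ f) w
  ch : ∀ N, ∃ l, l ≠ [] ∧ Refines [le0 ∘ f] l ∧
    DCh N (le0 1, le0 1) (fun _ => 0) (σ N) (le0 a) l (le0 c) (τ N)

theorem lab0 (N : ℕ) (σ : ℤ × ℤ) (d : ℤ) (h : d ≡ σ.1 + σ.2 [ZMOD 11]) :
    Lab N (le0 1, le0 1) (fun _ => 0) σ (le0 d) := by
  refine ⟨⟨by simpa [ap, le0] using h, fun i => i.elim⟩, fun c _ => Or.inl ⟨rfl, ?_⟩⟩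
  show dot c (le0 d).2 = 0
  simp [dot]

theorem good_cell {b : ℤ} (hb : 0 ≤ b) (hb1 : b ≡ 1 [ZMOD 11]) (σ τ : ℕ → ℤ × ℤ) (a c : ℕ)
    (h1 : ∀ N, (a + 1 : ℤ) ≡ (σ N).1 + (σ N).2 [ZMOD 11])
    (h2 : ∀ N, (c + 1 : ℤ) ≡ (τ N).1 + (τ N).2 [ZMOD 11])
    (h3 : ∀ N, det (σ N) (τ N) ≡ 1 [ZMOD md N]) :
    Good b 1 (lin (a + b) (c + b)) σ (a + b) (c + b) τ (ww (a + 1) (c + 1)) where
  pl := PL.lin _ _
  low z := by
    simp only [lin, nsmul_eq_mul, Nat.cast_one, one_mul]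
    constructor <;> nlinarith [Int.natCast_nonneg z.1, Int.natCast_nonneg z.2,
      Int.natCast_nonneg a, Int.natCast_nonneg c]
  s := by simp
  e := by simp
  w := by
    have e : ∀ x : ℕ, red (x + b) = x + 1 := fun x => by
      have := (ZMod.intCast_eq_intCast_iff _ _ 11).2 hb1
      change ((x + b : ℤ) : ZMod 11) = _
      push_cast at this ⊢
      rw [this]
    rw [map_lin, e, e]
    exact HasW.lin _ _
  ch N := ⟨[lin (le0 (a + b)) (le0 (c + b))], by simp, by rw [map_lin]; exact Refines.refl _,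
    DCh.cons _ _ _ _ _ _ _ (lab0 N _ _ ((hb1.add_left a).trans (h1 N))) (h3 N)
      (DCh.nil _ _ (lab0 N _ _ ((hb1.add_left c).trans (h2 N))))⟩

theorem Good.glue {b : ℤ} (hb : 0 ≤ b) {D D' : ℕ} {f g : Pt → ℤ} {σ τ ρ : ℕ → ℤ × ℤ}
    {a c d w w' : ℤ} (h : Good b D f σ a c τ w) (h' : Good b D' g τ c d ρ w') :
    ∃ k, Good b (2 * (D + D')) k σ a d ρ (w + w') := by
  obtain ⟨k, rfl, rfl⟩ := exists_glue h.pl h'.pl (h'.s.trans h.e.symm)
  refine ⟨k, PL.split h.pl h'.pl, fun z => ?_, h.s, h'.e, HasW.split _ _ _ h.w h'.w, fun N => ?_⟩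
  · rcases cover z with ⟨v, rfl⟩ | ⟨v, rfl⟩
    · obtain ⟨a1, a2⟩ := h.low v
      simp only [Function.comp] at a1 a2
      refine ⟨?_, a2⟩
      generalize k (cL v) = x at *
      simp only [cL]
      push_cast
      nlinarith [Int.natCast_nonneg v.1, Int.natCast_nonneg D']
    · obtain ⟨a1, a2⟩ := h'.low v
      simp only [Function.comp] at a1 a2
      refine ⟨?_, a2⟩
      generalize k (cR v) = x at *
      simp only [cR]
      push_cast
      nlinarith [Int.natCast_nonneg v.2, Int.natCast_nonneg D]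
  · obtain ⟨l, l1, l2, l3⟩ := h.ch N
    obtain ⟨l', -, l2', l3'⟩ := h'.ch N
    exact ⟨l ++ l', by simp [l1], Refines.split _ _ _ (l2.append l2'), l3.append l3'⟩

theorem good_base {b : ℤ} (hb : 0 ≤ b) (hb1 : b ≡ 1 [ZMOD 11]) :
    Good b 1 (lin b b) (fun _ => (1, 0)) b b (fun _ => (0, 1)) 0 := by
  have := good_cell hb hb1 (fun _ => (1, 0)) (fun _ => (0, 1)) 0 0 (fun _ => by decide)
    (fun _ => by decide) (fun _ => by simp [det])
  simpa [show ww 1 1 = 0 by decide] using this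

theorem good_loop : ∃ D : ℕ, 0 < D ∧ ∀ b : ℤ, 0 ≤ b → b ≡ 1 [ZMOD 11] →
    ∃ f, Good b D f (fun _ => (1, 0)) b b (fun _ => (1, 0)) (-5) := by
  choose k l hk hl hkl using exists_kl
  refine ⟨94, by norm_num, fun b hb hb1 => ?_⟩
  · have c1 := good_cell hb hb1 (fun _ => (1, 0)) (fun N => (k N, 1)) 0 3 (fun _ => by decide)
      (fun N => ((hk N).add_right 1).symm) (fun _ => by simp [det])
    have c2 := good_cell hb hb1 (fun N => (k N, 1)) (fun N => (1, l N)) 3 8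
      (fun N => ((hk N).add_right 1).symm) (fun N => ((hl N).add_left 1).symm)
      (fun N => by simpa [det] using (hkl N).sub_right 1)
    have c3 := good_cell hb hb1 (fun N => (1, l N)) (fun _ => (0, 1)) 8 0
      (fun N => ((hl N).add_left 1).symm) (fun _ => by decide) (fun _ => by simp [det])
    have c4 := good_cell hb hb1 (fun _ => (0, 1)) (fun _ => (-1, 0)) 0 9
      (fun _ => by decide) (fun _ => by decide) (fun _ => by simp [det])
    have c5 := good_cell hb hb1 (fun _ => (-1, 0)) (fun _ => (0, -1)) 9 9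
      (fun _ => by decide) (fun _ => by decide) (fun _ => by simp [det])
    have c6 := good_cell hb hb1 (fun _ => (0, -1)) (fun _ => (1, 0)) 9 0
      (fun _ => by decide) (fun _ => by decide) (fun _ => by simp [det])
    obtain ⟨_, d2⟩ := c1.glue hb c2
    obtain ⟨_, d3⟩ := d2.glue hb c3
    obtain ⟨_, d4⟩ := d3.glue hb c4
    obtain ⟨_, d5⟩ := d4.glue hb c5
    obtain ⟨f, d6⟩ := d5.glue hb c6
    refine ⟨f, ?_⟩
    have e : (-5 : ℤ) = ww ((0 : ℕ) + 1) ((3 : ℕ) + 1) + ww ((3 : ℕ) + 1) ((8 : ℕ) + 1) +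
        ww ((8 : ℕ) + 1) ((0 : ℕ) + 1) + ww ((0 : ℕ) + 1) ((9 : ℕ) + 1) +
        ww ((9 : ℕ) + 1) ((9 : ℕ) + 1) + ww ((9 : ℕ) + 1) ((0 : ℕ) + 1) := by decide +kernel
    rw [e]
    rw [Nat.cast_zero (R := ℤ), zero_add b] at d6
    exact d6

theorem good_fam (n : ℕ) : ∃ D : ℕ, 0 < D ∧ ∀ b : ℤ, 0 ≤ b → b ≡ 1 [ZMOD 11] →
    ∃ f, Good b D f (fun _ => (1, 0)) b b (fun _ => (0, 1)) (-5 * n) := by
  induction n with
  | zero => exact ⟨1, one_pos, fun b hb hb1 => ⟨_, by simpa using good_base hb hb1⟩⟩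
  | succ n ih =>
    obtain ⟨D, hD, h⟩ := ih
    obtain ⟨D', -, h'⟩ := good_loop
    refine ⟨2 * (D' + D), by omega, fun b hb hb1 => ?_⟩
    obtain ⟨f, hf⟩ := h b hb hb1
    obtain ⟨g, hg⟩ := h' b hb hb1
    obtain ⟨k, hk⟩ := hg.glue hb hf
    refine ⟨k, ?_⟩
    rwa [show (-5 : ℤ) * (n + 1 : ℕ) = -5 + -5 * n by push_cast; ring]

theorem init_good {u u' : A} {b b' : ℤ} {D D' : ℕ} {σ τ : ℕ → ℤ × ℤ} {a c a' c' w w' : ℤ}
    (h : Good b D u.1 σ a c τ w) (h' : Good b' D' u'.1 σ a' c' τ w') (N : ℕ) :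
    RG u u' N Empty Empty.elim Empty.elim := by
  have hcell : ∀ u : A, cellOf (Empty.elim : Empty → G u) = le0 ∘ u.1 := by
    intro u
    funext z
    exact Prod.ext rfl (Subsingleton.elim _ _)
  obtain ⟨l, l1, l2, l3⟩ := h.ch N
  obtain ⟨l', l1', l2', l3'⟩ := h'.ch N
  refine ⟨fun i => i.elim, _, _, _, _, Rel.refine _ _ _ _ _ _ _ _ ?_ ?_
    (Rel.defect _ _ _ _ _ _ _ _ _ _ l3 l3' l1 l1')⟩
  · rwa [hcell]
  · rwa [hcell]

theorem exists_fam : ∃ u : ℕ → A, (∀ n, Dat.Strong (u n)) ∧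
    (∀ n, HasW (red ∘ (u n).1) (-5 * n) ∧ red ((u n).1 (1, 0)) = 1) ∧
    ∀ m n N, RG (u m) (u n) N Empty Empty.elim Empty.elim := by
  choose D hD h using good_fam
  have h1 : ∀ n, (1 + 11 * (D n : ℤ)) ≡ 1 [ZMOD 11] := fun n => by
    unfold Int.ModEq; omega
  choose f hf using fun n => h n (1 + 11 * D n) (by positivity) (h1 n)
  refine ⟨fun n => ⟨f n, (hf n).pl⟩, fun n z => ?_, fun n => ⟨(hf n).w, ?_⟩,
    fun m n N => init_good (u := ⟨f m, (hf m).pl⟩) (u' := ⟨f n, (hf n).pl⟩) (hf m) (hf n) N⟩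
  · have a1 := ((hf n).low z).1
    have a2 : (0 : ℤ) < D n := by exact_mod_cast hD n
    refine le_of_mul_le_mul_left (le_trans ?_ a1) a2
    nlinarith [Int.natCast_nonneg z.1, Int.natCast_nonneg z.2]
  · change red (f n (1, 0)) = 1
    rw [(hf n).s]
    exact_mod_cast (ZMod.intCast_eq_intCast_iff _ _ 11).2 (h1 n)

theorem hasW_bij {φ ψ : Pt → Pt} (hφ : PL (cst ∘ φ)) (hψ : PL (cst ∘ ψ))
    (h1 : ∀ z, ψ (φ z) = z) {f : Pt → ZMod 11} {k l : ℤ} (h2 : ∀ z, φ (ψ z) = z)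
    (hf : HasW f k) (hl : HasW (f ∘ φ) l) : |l| ≤ |k| := by
  have hinj : Function.Injective ψ := Function.LeftInverse.injective h2
  have h := hasW_comp hψ hf hφ φ (1, 0) (0, 1) rfl rfl (fun z => by rw [h1]; simp [cm])
  have hb : ∀ s : Pt, s.1 = 0 ∨ s.2 = 0 → Pot f s = 0 ∨ Pot f s = k := by
    intro s hs
    by_cases h0 : s.2 = 0
    · exact Or.inl (Pot_e1 f h0)
    · rw [Pot_e2 f h0 (by omega), hf.eq_W]
      exact Or.inr rfl
  have b1 := boundary hψ hinj _ (h1 (1, 0))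
  have b2 := boundary (ψ := Prod.swap ∘ ψ)
    (hψ.map (AddEquiv.prodComm : ℤ × ℤ ≃+ ℤ × ℤ).toAddMonoidHom)
    (Prod.swap_injective.comp hinj) (φ (0, 1)) (by simp [h1])
  rw [hl.unique h]
  rcases hb _ b1 with a | a <;> rcases hb _ b2 with a' | a' <;> simp [a, a']

theorem inv_le {u u' : A} (e : G u ≃*o G u') {k l : ℤ} (hk : HasW (red ∘ u.1) k)
    (hl : HasW (red ∘ u'.1) l) (h0 : red (u.1 (1, 0)) = 1) : |l| ≤ |k| := by
  obtain ⟨θ, φ, hφ, h1, h2⟩ := exists_theta e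
  obtain ⟨θ', ψ, hψ, h1', h2'⟩ := exists_theta e.symm
  have i1 : ∀ f, θ' (θ f) = f := fun f => iota_inj u (by rw [← h1', ← h1, e.symm_apply_apply])
  have i2 : ∀ f, θ (θ' f) = f := fun f => iota_inj u' (by rw [← h1, ← h1', e.apply_symm_apply])
  have j1 : ∀ z, φ (ψ z) = z := by
    intro z
    apply cst_inj
    have a1 := congrFun (congrArg Subtype.val (i1 xA)) z
    have a2 := congrFun (congrArg Subtype.val (i1 yA)) z
    rw [h2', h2] at a1 a2
    simp only [xA_apply, yA_apply] at a1 a2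
    exact Prod.ext a1 a2
  have j2 : ∀ z, ψ (φ z) = z := by
    intro z
    apply cst_inj
    have a1 := congrFun (congrArg Subtype.val (i2 xA)) z
    have a2 := congrFun (congrArg Subtype.val (i2 yA)) z
    rw [h2, h2'] at a1 a2
    simp only [xA_apply, yA_apply] at a1 a2
    exact Prod.ext a1 a2
  have r := congrArg (fun g => (e g).f) (rel_ta u)
  simp only [map_mul, map_inv, map_pow, G.mul_f, G.inv_f, h1, iota_f, pow_kf2] at r
  have r2 : ∀ z, (θ u).1 z = (e (aG u)).f.1 z := by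
    intro z
    have := congrFun (congrArg Subtype.val r) z
    simp only [AddSubgroup.coe_add, Pi.add_apply, NegMemClass.coe_neg, Pi.neg_apply,
      AddSubgroupClass.coe_zsmul, AddSubmonoidClass.coe_nsmul, Pi.smul_apply, smul_eq_mul,
      nsmul_eq_mul] at this
    push_cast at this
    omega
  obtain ⟨j, m, -, hm⟩ := (e (aG u)).ok
  have r3 : (red ∘ u.1) ∘ φ = fun z => (m : ZMod 11) * (red ∘ u'.1) z := by
    funext z
    have := (ZMod.intCast_eq_intCast_iff _ _ 11).mpr (hm z)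
    rw [← r2, h2] at this
    push_cast at this
    exact this
  have hm0 : (m : ZMod 11) ≠ 0 := by
    intro h
    have := congrFun r3 (ψ (1, 0))
    rw [h, zero_mul, Function.comp_apply, j1, Function.comp_apply, h0] at this
    revert this
    decide
  exact hasW_bij hφ hψ j2 j1 hk (r3 ▸ hl.smul hm0)

end Pool.Agent.P.MP_6e3a57_lc.H
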