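import Pool.Agent.P.MP_6e3a57_lc.H.Quot
import Pool.Agent.P.MP_6e3a57_lc.H.Fam

/-!
Transfer to the language with five symbols.
-/

namespace Pool.Agent.P.MP_6e3a57_lc.H

open Pool.Agent.P.MP_6e3a57_lc FirstOrder FirstOrder.Language

theorem exists_tr {α : Type} (t : LL.Term α) : ∃ s : Lg.Term α, ∀ (K : LG) (v : α → K.α),
    s.realize v = @Term.realize LL K.α (lstr K.α) α v t := by
  induction t with
  | var a => exact ⟨Term.var a, fun _ _ => rfl⟩
  | @func n k ts ih =>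
    choose s hs using ih
    have h : ∀ i : ℕ, ∃ r : Lg.Term α, ∀ (K : LG) (v : α → K.α), r.realize v =
        if h : i < n then @Term.realize LL K.α (lstr K.α) α v (ts ⟨i, h⟩) else 1 := fun i => by
      by_cases hn : i < n
      · exact ⟨s ⟨i, hn⟩, fun K v => by rw [dif_pos hn, hs]⟩
      · exact ⟨t0, fun K v => by rw [dif_neg hn, rz_one]⟩
    obtain ⟨a, ha⟩ := h 0
    obtain ⟨b, hb⟩ := h 1
    have hk : k = (0 : Fin 4) ∨ k = (1 : Fin 4) ∨ k = (2 : Fin 4) ∨ k = (3 : Fin 4) := by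
      revert k
      show ∀ k : Fin 4, k = 0 ∨ k = 1 ∨ k = 2 ∨ k = 3
      decide
    rcases hk with rfl | rfl | rfl | rfl
    · exact ⟨t2 .mul a b, fun K v => congrArg₂ (· * ·) (ha K v) (hb K v)⟩
    · exact ⟨t1 a, fun K v => congrArg (·⁻¹) (ha K v)⟩
    · exact ⟨t2 .sup a b, fun K v => congrArg₂ (· ⊔ ·) (ha K v) (hb K v)⟩
    · exact ⟨t2 .inf a b, fun K v => congrArg₂ (· ⊓ ·) (ha K v) (hb K v)⟩

/-- The group `G u` as a bundled object. -/
noncomputable def lgOf (u : A) : LG := ⟨G u⟩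

theorem finPres_lgOf (u : A) (hu : Dat.Strong u) : FinPres (lgOf u) := by
  obtain ⟨n, m, g, r, h1, h2⟩ := fp u hu
  choose s hs using fun t : LL.Term (Fin n) => exists_tr t
  refine finPres_of_univ (lgOf u) g (fun j => (s (r j).1, s (r j).2))
    (fun j => (hs _ (lgOf u) g).trans ((h1 j).trans (hs _ (lgOf u) g).symm)) fun K h hh => ?_
  obtain ⟨φ, ⟨a1, a2⟩, a3⟩ := @h2 K.α _ _ _ _ (lstr K.α) rfl h fun j =>
    (hs _ K h).symm.trans ((hh j).trans (hs _ K h))
  refine ⟨φ, ⟨fun a b => ⟨a1 a b, ?_⟩, a2⟩, fun ψ hψ => a3 ψ ⟨fun a b => (hψ.1 a b).1, hψ.2⟩⟩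
  have e : ∀ a b : G u, φ (a ⊓ b) = φ a ⊓ φ b := fun a b => by
    rw [inf_eq_inv_sup, inf_eq_inv_sup (φ a), map_inv, a1, map_inv, map_inv]
  exact e a b

/-- The map of languages. -/
def lhom : Lg →ᴸ LL where
  onFunction _ f := match f with
    | .mul => (0 : Fin 4)
    | .inv => (1 : Fin 4)
    | .one => (0 : Fin 4)
    | .sup => (2 : Fin 4)
    | .inf => (3 : Fin 4)
  onRelation _ r := r.elim

theorem lhom_exp (K : LG) : @LHom.IsExpansionOn _ _ lhom K.α _ (lstr K.α) :=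
  @LHom.IsExpansionOn.mk _ _ lhom K.α _ (lstr K.α)
    (fun f x => by
      cases f
      · rfl
      · rfl
      · exact one_mul 1
      · rfl
      · rfl)
    (fun r => r.elim)

theorem equiv_of {K K' : LG}
    (h : @completeTheory LL K.α (lstr _) = @completeTheory LL K'.α (lstr _)) :
    Lg.ElementarilyEquivalent K.α K'.α := by
  rw [elementarilyEquivalent_iff]
  intro φ
  have h1 := @LHom.realize_onSentence _ _ K.α _ (lstr _) lhom (lhom_exp K) φ
  have h2 := @LHom.realize_onSentence _ _ K'.α _ (lstr _) lhom (lhom_exp K') φ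
  rw [← h1, ← h2]
  exact Set.ext_iff.1 h (lhom.onSentence φ)

theorem metab (u : A) : derivedSeries (G u) 2 = ⊥ := by
  let f : G u →* Multiplicative ℤ := MonoidHom.mk' (fun g => Multiplicative.ofAdd g.k)
    fun _ _ => rfl
  have h : ∀ a ∈ derivedSeries (G u) 1, a.k = 0 := fun a ha =>
    Abelianization.commutator_subset_ker f ha
  rw [derivedSeries_succ, Subgroup.commutator_eq_bot_iff_le_centralizer]
  intro a ha b hb
  refine G.ext ?_ ?_ ?_
  · simp [add_comm]
  · simp [h a ha, h b hb, add_comm]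
  · simp [add_comm]

end Pool.Agent.P.MP_6e3a57_lc.H
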