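import Mathlib

/-!
Lattice-ordered groups, their first-order language, free objects, ideals and finite presentations.
-/

namespace Pool.Agent.P.MP_6e3a57_lc.H

/-- A lattice-ordered group. -/
structure LG : Type 1 where
  /-- the underlying set -/
  α : Type
  [grp : Group α]
  [lat : Lattice α]
  [left : MulLeftMono α]
  [right : MulRightMono α]

attribute [instance] LG.grp LG.lat LG.left LG.right

/-- The function symbols: product, inverse, unit, join, meet. -/
inductive Fn : ℕ → Type
  | mul : Fn 2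
  | inv : Fn 1
  | one : Fn 0
  | sup : Fn 2
  | inf : Fn 2

/-- The first-order language of lattice-ordered groups (no relation symbols). -/
def Lg : FirstOrder.Language := ⟨Fn, fun _ => Empty⟩

/-- A lattice-ordered group is a structure for this language. -/
instance LG.str (G : LG) : Lg.Structure G.α where
  funMap
    | .mul, x => x 0 * x 1
    | .inv, x => (x 0)⁻¹
    | .one, _ => 1
    | .sup, x => x 0 ⊔ x 1
    | .inf, x => x 0 ⊓ x 1
  RelMap r _ := r.elim

/-- A group homomorphism that preserves joins and meets. -/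
def IsLHom {F G : LG} (φ : F.α →* G.α) : Prop :=
  ∀ a b, φ (a ⊔ b) = φ a ⊔ φ b ∧ φ (a ⊓ b) = φ a ⊓ φ b

/-- `F` is the free lattice-ordered group on the family `x`. -/
def IsFree {n : ℕ} (F : LG) (x : Fin n → F.α) : Prop :=
  ∀ (K : LG) (h : Fin n → K.α), ∃! φ : F.α →* K.α, IsLHom φ ∧ ∀ i, φ (x i) = h i

/-- A normal convex sublattice subgroup. -/
def IsIdeal {F : LG} (I : Subgroup F.α) : Prop :=
  I.Normal ∧ (∀ a ∈ I, ∀ b ∈ I, a ⊔ b ∈ I ∧ a ⊓ b ∈ I) ∧
    ∀ a ∈ I, ∀ c ∈ I, ∀ b, a ≤ b → b ≤ c → b ∈ I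

/-- `G` is the quotient of a free lattice-ordered group of finite rank by the smallest ideal
that contains a finite set. -/
def FinPres (G : LG) : Prop :=
  ∃ (n : ℕ) (F : LG) (x : Fin n → F.α) (R : Finset F.α) (π : F.α →* G.α),
    IsFree F x ∧ IsLHom π ∧ Function.Surjective π ∧
      π.ker = sInf {I | IsIdeal I ∧ (R : Set F.α) ⊆ I}

end Pool.Agent.P.MP_6e3a57_lc.H
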