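import Pool.Agent.P.MP_6e3a57_lc.Lift

set_option autoImplicit false

/-!
The first-order language of lattice-ordered groups, the finite presentation of G u, and a
back-and-forth criterion for elementary equivalence.
-/

namespace Pool.Agent.P.MP_6e3a57_lc.H

open FirstOrder FirstOrder.Language

/-- The language. -/
abbrev LL : FirstOrder.Language := FirstOrder.Language.mk (fun _ => Fin 4) (fun _ => Empty)

/-- The structure on a lattice-ordered group. -/
@[reducible] def lstr (K : Type) [Group K] [Lattice K] : LL.Structure K :=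
  { funMap := fun {n} (k : Fin 4) (x : Fin n → K) =>
      if k = 0 then (if h : 0 < n then x ⟨0, h⟩ else 1) * (if h : 1 < n then x ⟨1, h⟩ else 1)
      else if k = 1 then (if h : 0 < n then x ⟨0, h⟩ else 1)⁻¹
      else if k = 2 then (if h : 0 < n then x ⟨0, h⟩ else 1) ⊔ (if h : 1 < n then x ⟨1, h⟩ else 1)
      else (if h : 0 < n then x ⟨0, h⟩ else 1) ⊓ (if h : 1 < n then x ⟨1, h⟩ else 1),
    RelMap := fun _ _ => False }

attribute [local instance] lstr

section terms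

variable {α : Type}

/-- Product of terms. -/
def tmul (s t : LL.Term α) : LL.Term α := Term.func (l := 2) (0 : Fin 4) ![s, t]
/-- Inverse of a term. -/
def tinv (s : LL.Term α) : LL.Term α := Term.func (l := 1) (1 : Fin 4) ![s]
/-- Join of terms. -/
def tsup (s t : LL.Term α) : LL.Term α := Term.func (l := 2) (2 : Fin 4) ![s, t]
/-- The unit. -/
def tone : LL.Term α := Term.func (l := 0) (0 : Fin 4) ![]
/-- Powers of a term. -/
def tpow (s : LL.Term α) : ℕ → LL.Term α
  | 0 => tone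
  | n + 1 => tmul (tpow s n) s

variable {K : Type} [Group K] [Lattice K] (v : α → K)

@[simp] lemma rz_tmul (s t : LL.Term α) : (tmul s t).realize v = s.realize v * t.realize v := rfl
@[simp] lemma rz_tinv (s : LL.Term α) : (tinv s).realize v = (s.realize v)⁻¹ := rfl
@[simp] lemma rz_tsup (s t : LL.Term α) : (tsup s t).realize v = s.realize v ⊔ t.realize v := rfl
@[simp] lemma rz_tone : (tone : LL.Term α).realize v = 1 := one_mul 1
@[simp] lemma rz_tpow (s : LL.Term α) (n : ℕ) : (tpow s n).realize v = s.realize v ^ n := by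
  induction n with
  | zero => simp [tpow]
  | succ n ih => simp [tpow, ih, pow_succ]

end terms

lemma exists_term (f : A) : ∃ τ : LL.Term (Fin 4), ∀ (K : Type) [Group K] [Lattice K]
    [MulLeftMono K] [MulRightMono K] (η : A → K), IsHom η → ∀ h : Fin 4 → K, h 2 = η xA →
      h 3 = η yA → τ.realize h = η f := by
  let S : AddSubgroup A :=
    { carrier := {f | ∃ τ : LL.Term (Fin 4), ∀ (K : Type) [Group K] [Lattice K]
        [MulLeftMono K] [MulRightMono K] (η : A → K), IsHom η → ∀ h : Fin 4 → K, h 2 = η xA →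
          h 3 = η yA → τ.realize h = η f}
      add_mem' := by
        rintro a b ⟨s, hs⟩ ⟨t, ht⟩
        refine ⟨tmul s t, fun K _ _ _ _ η hη h h2 h3 => ?_⟩
        rw [rz_tmul, hs K η hη h h2 h3, ht K η hη h h2 h3, hη.add]
      zero_mem' := ⟨tone, fun K _ _ _ _ η hη h _ _ => by rw [rz_tone, hη.zero]⟩
      neg_mem' := by
        rintro a ⟨s, hs⟩
        refine ⟨tinv s, fun K _ _ _ _ η hη h h2 h3 => ?_⟩
        rw [rz_tinv, hs K η hη h h2 h3, hη.neg] }
  refine gen_A S ?_ ⟨Term.var 2, fun K _ _ _ _ η _ h h2 _ => h2⟩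
    ⟨Term.var 3, fun K _ _ _ _ η _ h _ h3 => h3⟩ f
  rintro a ⟨s, hs⟩ b ⟨t, ht⟩
  refine ⟨tinv (tsup (tinv s) (tinv t)), fun K _ _ _ _ η hη h h2 h3 => ?_⟩
  rw [rz_tinv, rz_tsup, rz_tinv, rz_tinv, hs K η hη h h2 h3, ht K η hη h h2 h3, hη.inf,
    inf_eq_inv_sup]

theorem fp (u : A) (hu : Dat.Strong u) :
    ∃ (n m : ℕ) (g : Fin n → G u) (r : Fin m → LL.Term (Fin n) × LL.Term (Fin n)),
      (∀ j, (r j).1.realize g = (r j).2.realize g) ∧
      ∀ (K : Type) [Group K] [Lattice K] [MulLeftMono K] [MulRightMono K]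
        [SK : LL.Structure K], SK = lstr K →
        ∀ h : Fin n → K, (∀ j, (r j).1.realize h = (r j).2.realize h) →
          ∃! φ : G u →* K, (∀ a b : G u, φ (a ⊔ b) = φ a ⊔ φ b) ∧ ∀ i, φ (g i) = h i := by
  obtain ⟨τ, hτ⟩ := exists_term u
  let t : LL.Term (Fin 4) := Term.var 0
  let a : LL.Term (Fin 4) := Term.var 1
  let x : LL.Term (Fin 4) := Term.var 2
  let y : LL.Term (Fin 4) := Term.var 3
  let g : Fin 4 → G u := ![tG u, aG u, iota u xA, iota u yA]
  have hU : τ.realize g = iota u u := hτ (G u) (iota u) (isHom_iota u) g rfl rfl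
  have hx0 : (0 : A) ≤ xA := fun z => by simp
  have hy0 : (0 : A) ≤ yA := fun z => by simp
  refine ⟨4, 10, g, ![(tmul t x, tmul x t), (tmul a x, tmul x a), (tmul y x, tmul x y),
    (tmul t y, tmul y t), (tmul a y, tmul y a), (tsup x tone, x), (tsup y tone, y),
    (tmul (tmul (tmul t a) (tinv t)) τ, tpow a 12), (tsup τ a, a), (tsup a t, t)], ?_, ?_⟩
  · intro j
    fin_cases j
    · exact (iota_comm u xA _).symm
    · exact (iota_comm u xA _).symm
    · exact (iota_comm u xA _).symm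
    · exact (iota_comm u yA _).symm
    · exact (iota_comm u yA _).symm
    · show iota u xA ⊔ (tone : LL.Term (Fin 4)).realize g = iota u xA
      rw [rz_tone, sup_eq_left, ← (isHom_iota u).zero, iota_le]
      exact hx0
    · show iota u yA ⊔ (tone : LL.Term (Fin 4)).realize g = iota u yA
      rw [rz_tone, sup_eq_left, ← (isHom_iota u).zero, iota_le]
      exact hy0
    · show tG u * aG u * (tG u)⁻¹ * τ.realize g = (tpow a 12).realize g
      rw [hU, rz_tpow, rel_ta]
      rfl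
    · show τ.realize g ⊔ aG u = aG u
      rw [hU, sup_eq_right]
      exact Or.inl (Or.inr ⟨rfl, by simp⟩)
    · show aG u ⊔ tG u = tG u
      rw [sup_eq_right]
      exact Or.inl (Or.inl (by simp))
  · intro K _ _ _ _ SK hSK h hr
    subst hSK
    have r0 : h 0 * h 2 = h 2 * h 0 := hr 0
    have r1 : h 1 * h 2 = h 2 * h 1 := hr 1
    have r2 : h 3 * h 2 = h 2 * h 3 := hr 2
    have r3 : h 0 * h 3 = h 3 * h 0 := hr 3
    have r4 : h 1 * h 3 = h 3 * h 1 := hr 4
    have r5 : h 2 ⊔ (tone : LL.Term (Fin 4)).realize h = h 2 := hr 5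
    have r6 : h 3 ⊔ (tone : LL.Term (Fin 4)).realize h = h 3 := hr 6
    have r7 : h 0 * h 1 * (h 0)⁻¹ * τ.realize h = (tpow a 12).realize h := hr 7
    have r8 : τ.realize h ⊔ h 1 = h 1 := hr 8
    have r9 : h 1 ⊔ h 0 = h 0 := hr 9
    rw [rz_tone, sup_eq_left] at r5 r6
    rw [sup_eq_right] at r8 r9
    obtain ⟨η, hη, ex, ey, hc⟩ := exists_eta (Set.range h) (h 2) (h 3) ⟨2, rfl⟩ ⟨3, rfl⟩
      (by
        rintro _ ⟨i, rfl⟩
        fin_cases i
        exacts [r0, r1, rfl, r2])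
      (by
        rintro _ ⟨i, rfl⟩
        fin_cases i
        exacts [r3, r4, r2.symm, rfl]) r5 r6
    have hU' : τ.realize h = η u := hτ K η hη h ex.symm ey.symm
    rw [hU'] at r7 r8
    rw [rz_tpow] at r7
    obtain ⟨φ, h1, h2, h3, h4⟩ := Dat.exists_lift hu
      ⟨η, h 0, h 1, hη, fun f => hc f _ ⟨0, rfl⟩, fun f => hc f _ ⟨1, rfl⟩, r7, r8, r9⟩
    have hg : ∀ i, φ (g i) = h i := by
      intro i
      fin_cases i
      · exact h2
      · exact h3
      · exact (h4 xA).trans ex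
      · exact (h4 yA).trans ey
    refine ⟨φ, ⟨h1, hg⟩, ?_⟩
    rintro ψ ⟨k1, k2⟩
    exact lift_unique ψ φ k1 h1 ((k2 0).trans (hg 0).symm) ((k2 1).trans (hg 1).symm)
      ((k2 2).trans (hg 2).symm) ((k2 3).trans (hg 3).symm)

/-- A family of relations between tuples. -/
abbrev Fam (G H : Type) : Type 1 := ℕ → ∀ (ι : Type) [Fintype ι], (ι → G) → (ι → H) → Prop

/-- One half of a back-and-forth system. -/
structure Half {G H : Type} [Group G] [Lattice G] [Group H] [Lattice H] (R : Fam G H) : Prop where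
  mono : ∀ N N' (ι : Type) [Fintype ι] x y, N ≤ N' → R N' ι x y → R N ι x y
  forth : ∀ N, ∃ N', ∀ (ι : Type) [Fintype ι] x y, R N' ι x y → ∀ a, ∃ b,
    R N (Option ι) (fun o => o.elim a x) (fun o => o.elim b y)
  mul : ∃ N, ∀ (ι : Type) [Fintype ι] x y, R N ι x y → ∀ i j l, x i * x j = x l → y i * y j = y l
  le : ∃ N, ∀ (ι : Type) [Fintype ι] x y, R N ι x y → ∀ i j, x i ≤ x j → y i ≤ y j

/-- The converse family. -/
def Fam.swap {G H : Type} (R : Fam G H) : Fam H G := fun N ι _ y x => R N ι x y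

section EF

variable {G H : Type} [Group G] [Lattice G] [Group H] [Lattice H] {R : Fam G H}

/-- A binary operation whose graph is preserved can be added to the tuples. -/
lemma Half.add_op (h : Half R) (oG : G → G → G) (oH : H → H → H)
    (ho : ∃ N, ∀ (ι : Type) [Fintype ι] x y, R N ι x y → ∀ i j l, oG (x i) (x j) = x l →
      oH (y i) (y j) = y l) (N : ℕ) :
    ∃ N', ∀ (ι : Type) [Fintype ι] x y, R N' ι x y → ∀ i j,
      R N (Option ι) (fun o => o.elim (oG (x i) (x j)) x) (fun o => o.elim (oH (y i) (y j)) y) := by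
  obtain ⟨N0, h0⟩ := ho
  obtain ⟨N', h1⟩ := h.forth (max N N0)
  refine ⟨N', fun ι _ x y hR i j => ?_⟩
  obtain ⟨b, hb⟩ := h1 ι x y hR (oG (x i) (x j))
  have := h0 _ _ _ (h.mono _ _ _ _ _ (le_max_right _ _) hb) (some i) (some j) none rfl
  simp only [Option.elim] at this
  rw [this]
  exact h.mono _ _ _ _ _ (le_max_left _ _) hb

lemma Half.sup_pres (h : Half R) (h' : Half R.swap) :
    ∃ N, ∀ (ι : Type) [Fintype ι] x y, R N ι x y → ∀ i j l, x i ⊔ x j = x l → y i ⊔ y j = y l := by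
  obtain ⟨N1, h1⟩ := h.le
  obtain ⟨N2, h2⟩ := h'.le
  obtain ⟨N3, h3⟩ := h'.forth (max N1 N2)
  refine ⟨max N1 N3, fun ι _ x y hR i j l e => ?_⟩
  have hR1 := h.mono _ _ _ _ _ (le_max_left _ _) hR
  obtain ⟨a, ha⟩ := h3 ι y x (h.mono _ _ _ _ _ (le_max_right _ _) hR) (y i ⊔ y j)
  have ha1 := h.mono _ _ _ _ _ (le_max_left _ _) ha
  have ha2 := h.mono _ _ _ _ _ (le_max_right _ _) ha
  apply le_antisymm
  · exact sup_le (h1 ι x y hR1 i l (e ▸ le_sup_left)) (h1 ι x y hR1 j l (e ▸ le_sup_right))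
  · have g1 : x i ≤ a := h2 _ _ _ ha2 (some i) none le_sup_left
    have g2 : x j ≤ a := h2 _ _ _ ha2 (some j) none le_sup_right
    exact h1 _ _ _ ha1 (some l) none (show x l ≤ a from e ▸ sup_le g1 g2)

lemma Half.inf_pres (h : Half R) (h' : Half R.swap) :
    ∃ N, ∀ (ι : Type) [Fintype ι] x y, R N ι x y → ∀ i j l, x i ⊓ x j = x l → y i ⊓ y j = y l := by
  obtain ⟨N1, h1⟩ := h.le
  obtain ⟨N2, h2⟩ := h'.le
  obtain ⟨N3, h3⟩ := h'.forth (max N1 N2)
  refine ⟨max N1 N3, fun ι _ x y hR i j l e => ?_⟩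
  have hR1 := h.mono _ _ _ _ _ (le_max_left _ _) hR
  obtain ⟨a, ha⟩ := h3 ι y x (h.mono _ _ _ _ _ (le_max_right _ _) hR) (y i ⊓ y j)
  have ha1 := h.mono _ _ _ _ _ (le_max_left _ _) ha
  have ha2 := h.mono _ _ _ _ _ (le_max_right _ _) ha
  apply le_antisymm
  · have g1 : a ≤ x i := h2 _ _ _ ha2 none (some i) inf_le_left
    have g2 : a ≤ x j := h2 _ _ _ ha2 none (some j) inf_le_right
    exact h1 _ _ _ ha1 none (some l) (show a ≤ x l from e ▸ le_inf g1 g2)
  · exact le_inf (h1 ι x y hR1 l i (e ▸ inf_le_left)) (h1 ι x y hR1 l j (e ▸ inf_le_right))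

lemma Half.one_ext (h : Half R) (N : ℕ) :
    ∃ N', ∀ (ι : Type) [Fintype ι] x y, R N' ι x y →
      R N (Option ι) (fun o => o.elim 1 x) (fun o => o.elim 1 y) := by
  obtain ⟨N0, h0⟩ := h.mul
  obtain ⟨N', h1⟩ := h.forth (max N N0)
  refine ⟨N', fun ι _ x y hR => ?_⟩
  obtain ⟨b, hb⟩ := h1 ι x y hR 1
  have := h0 _ _ _ (h.mono _ _ _ _ _ (le_max_right _ _) hb) none none none (one_mul 1)
  simp only [Option.elim] at this
  have e : b = 1 := mul_eq_left.mp this
  subst e
  exact h.mono _ _ _ _ _ (le_max_left _ _) hb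

lemma Half.inv_pres (h : Half R) :
    ∃ N, ∀ (ι : Type) [Fintype ι] x y, R N ι x y → ∀ i j l, (fun a _ => a⁻¹) (x i) (x j) = x l →
      (fun a _ => a⁻¹) (y i) (y j) = y l := by
  obtain ⟨N0, h0⟩ := h.mul
  obtain ⟨N1, h1⟩ := h.one_ext N0
  refine ⟨N1, fun ι _ x y hR i _ l e => ?_⟩
  have e' : (x i)⁻¹ = x l := e
  have := h0 _ _ _ (h1 ι x y hR) (some l) (some i) none (by simp [← e'])
  simp only [Option.elim] at this
  exact (eq_inv_of_mul_eq_one_left this).symm

/-- The statement that a pair of functions of the tuple can be added to the tuples. -/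
def Addable (R : Fam G H) {α : Type} (p : (α → G) → G) (q : (α → H) → H) : Prop :=
  ∀ N, ∃ N', ∀ (ι : Type) [Fintype ι] x y (σ : α → ι), R N' ι x y →
    ∃ (κ : Type) (_ : Fintype κ) (x' : κ → G) (y' : κ → H) (ρ : ι → κ) (i : κ),
      R N κ x' y' ∧ x = x' ∘ ρ ∧ y = y' ∘ ρ ∧ x' i = p (x ∘ σ) ∧ y' i = q (y ∘ σ)

lemma Half.addable_op (h : Half R) (oG : G → G → G) (oH : H → H → H)
    (ho : ∃ N, ∀ (ι : Type) [Fintype ι] x y, R N ι x y → ∀ i j l, oG (x i) (x j) = x l →
      oH (y i) (y j) = y l) {α : Type} {p p' : (α → G) → G} {q q' : (α → H) → H}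
    (h1 : Addable R p q) (h2 : Addable R p' q') :
    Addable R (fun v => oG (p v) (p' v)) (fun v => oH (q v) (q' v)) := by
  intro N
  obtain ⟨N1, g1⟩ := h.add_op oG oH ho N
  obtain ⟨N2, g2⟩ := h2 N1
  obtain ⟨N3, g3⟩ := h1 N2
  refine ⟨N3, fun ι _ x y σ hR => ?_⟩
  obtain ⟨κ, _, x', y', ρ, i, hR', rfl, rfl, e1, e2⟩ := g3 ι x y σ hR
  obtain ⟨κ', _, x'', y'', ρ', i', hR'', rfl, rfl, e1', e2'⟩ := g2 κ x' y' (ρ ∘ σ) hR'
  refine ⟨Option κ', inferInstance, _, _, some ∘ ρ' ∘ ρ, none, g1 κ' x'' y'' hR'' (ρ' i) i',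
    rfl, rfl, ?_, ?_⟩
  · show oG (x'' (ρ' i)) (x'' i') = _
    rw [e1']
    exact congrArg (fun z => oG z _) e1
  · show oH (y'' (ρ' i)) (y'' i') = _
    rw [e2']
    exact congrArg (fun z => oH z _) e2

lemma Half.addable_one (h : Half R) {α : Type} :
    Addable R (fun _ : α → G => 1) (fun _ : α → H => 1) := by
  intro N
  obtain ⟨N1, g1⟩ := h.one_ext N
  exact ⟨N1, fun ι _ x y σ hR =>
    ⟨Option ι, inferInstance, _, _, some, none, g1 ι x y hR, rfl, rfl, rfl, rfl⟩⟩

lemma Half.addable_term (h : Half R) (h' : Half R.swap) {α : Type} (t : LL.Term α) :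
    Addable R (fun v => t.realize v) (fun v => t.realize v) := by
  induction t with
  | var a => exact fun N => ⟨N, fun ι _ x y σ hR =>
      ⟨ι, inferInstance, x, y, id, σ a, hR, rfl, rfl, rfl, rfl⟩⟩
  | @func n k ts ih =>
    have h0 : Addable R (fun v : α → G => if h : 0 < n then (ts ⟨0, h⟩).realize v else 1)
        (fun v : α → H => if h : 0 < n then (ts ⟨0, h⟩).realize v else 1) := by
      by_cases hn : 0 < n
      · simp only [dif_pos hn]; exact ih _
      · simp only [dif_neg hn]; exact h.addable_one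
    have h1 : Addable R (fun v : α → G => if h : 1 < n then (ts ⟨1, h⟩).realize v else 1)
        (fun v : α → H => if h : 1 < n then (ts ⟨1, h⟩).realize v else 1) := by
      by_cases hn : 1 < n
      · simp only [dif_pos hn]; exact ih _
      · simp only [dif_neg hn]; exact h.addable_one
    have hk : k = (0 : Fin 4) ∨ k = (1 : Fin 4) ∨ k = (2 : Fin 4) ∨ k = (3 : Fin 4) := by
      revert k
      show ∀ k : Fin 4, k = 0 ∨ k = 1 ∨ k = 2 ∨ k = 3
      decide
    rcases hk with rfl | rfl | rfl | rfl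
    · exact h.addable_op (· * ·) (· * ·) h.mul h0 h1
    · exact h.addable_op (fun a _ => a⁻¹) (fun a _ => a⁻¹) h.inv_pres h0 h1
    · exact h.addable_op (· ⊔ ·) (· ⊔ ·) (h.sup_pres h') h0 h1
    · exact h.addable_op (· ⊓ ·) (· ⊓ ·) (h.inf_pres h') h0 h1

lemma Half.formula (h : Half R) (h' : Half R.swap) {k : ℕ} (φ : LL.BoundedFormula Empty k) :
    ∃ N, ∀ (ι : Type) [Fintype ι] x y (σ : Fin k → ι), R N ι x y →
      (φ.Realize default (x ∘ σ) ↔ φ.Realize default (y ∘ σ)) := by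
  induction φ with
  | falsum => exact ⟨0, fun ι _ x y σ _ => Iff.rfl⟩
  | @equal k s t =>
    obtain ⟨N1, g1⟩ := h.le
    obtain ⟨N2, g2⟩ := h'.le
    obtain ⟨N3, g3⟩ := h.addable_term h' t (max N1 N2)
    obtain ⟨N4, g4⟩ := h.addable_term h' s N3
    refine ⟨N4, fun ι _ x y σ hR => ?_⟩
    have ex : ∀ (M : Type) (x : ι → M), (Sum.elim default (x ∘ σ) : Empty ⊕ Fin k → M) =
        x ∘ Sum.elim Empty.elim σ := by
      intro M x
      funext z
      rcases z with z | z
      · exact z.elim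
      · rfl
    obtain ⟨κ, _, x', y', ρ, i, hR', rfl, rfl, e1, e2⟩ := g4 ι x y (Sum.elim Empty.elim σ) hR
    obtain ⟨κ', _, x'', y'', ρ', i', hR'', rfl, rfl, e1', e2'⟩ :=
      g3 κ x' y' (ρ ∘ Sum.elim Empty.elim σ) hR'
    have hA := h.mono _ _ _ _ _ (le_max_left _ _) hR''
    have hB := h.mono _ _ _ _ _ (le_max_right _ _) hR''
    simp only [BoundedFormula.Realize, ex]
    have f1 : s.realize (((x'' ∘ ρ') ∘ ρ) ∘ Sum.elim Empty.elim σ) = x'' (ρ' i) := e1.symm
    have f2 : s.realize (((y'' ∘ ρ') ∘ ρ) ∘ Sum.elim Empty.elim σ) = y'' (ρ' i) := e2.symm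
    have f3 : t.realize (((x'' ∘ ρ') ∘ ρ) ∘ Sum.elim Empty.elim σ) = x'' i' := e1'.symm
    have f4 : t.realize (((y'' ∘ ρ') ∘ ρ) ∘ Sum.elim Empty.elim σ) = y'' i' := e2'.symm
    rw [f1, f2, f3, f4]
    exact ⟨fun e => le_antisymm (g1 _ _ _ hA _ _ e.le) (g1 _ _ _ hA _ _ e.ge),
      fun e => le_antisymm (g2 _ _ _ hB _ _ e.le) (g2 _ _ _ hB _ _ e.ge)⟩
  | rel r _ => exact r.elim
  | imp φ ψ i1 i2 =>
    obtain ⟨N1, g1⟩ := i1
    obtain ⟨N2, g2⟩ := i2
    refine ⟨max N1 N2, fun ι _ x y σ hR => ?_⟩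
    simp only [BoundedFormula.Realize]
    exact imp_congr (g1 ι x y σ (h.mono _ _ _ _ _ (le_max_left _ _) hR))
      (g2 ι x y σ (h.mono _ _ _ _ _ (le_max_right _ _) hR))
  | @all k φ i1 =>
    obtain ⟨N1, g1⟩ := i1
    obtain ⟨N2, g2⟩ := h.forth N1
    obtain ⟨N3, g3⟩ := h'.forth N1
    refine ⟨max N2 N3, fun ι _ x y σ hR => ?_⟩
    have ex : ∀ (M : Type) (x : ι → M) (a : M), (Fin.snoc (x ∘ σ) a : Fin (k + 1) → M) =
        (fun o : Option ι => o.elim a x) ∘ (Fin.snoc (some ∘ σ) none : Fin (k + 1) → Option ι) := by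
      intro M x a
      funext z
      refine Fin.lastCases ?_ (fun z => ?_) z <;> simp
    simp only [BoundedFormula.Realize]
    constructor
    · intro hx b
      obtain ⟨a, ha⟩ := g3 ι y x (h.mono _ _ _ _ _ (le_max_right _ _) hR) b
      have := hx a
      rw [ex] at this ⊢
      exact (g1 _ _ _ _ ha).mp this
    · intro hy a
      obtain ⟨b, hb⟩ := g2 ι x y (h.mono _ _ _ _ _ (le_max_left _ _) hR) a
      have := hy b
      rw [ex] at this ⊢
      exact (g1 _ _ _ _ hb).mpr this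

theorem Half.equiv (h : Half R) (h' : Half R.swap)
    (h0 : ∀ N, R N Empty Empty.elim Empty.elim) : LL.completeTheory G = LL.completeTheory H := by
  ext φ
  obtain ⟨N, hN⟩ := h.formula h' φ
  have := hN Empty Empty.elim Empty.elim Fin.elim0 (h0 N)
  simp only [mem_completeTheory, Sentence.Realize, Formula.Realize]
  have e1 : (default : Fin 0 → G) = (Empty.elim : Empty → G) ∘ Fin.elim0 :=
    funext fun i => i.elim0
  have e2 : (default : Fin 0 → H) = (Empty.elim : Empty → H) ∘ Fin.elim0 :=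
    funext fun i => i.elim0
  rw [e1, e2]
  exact this

end EF

end Pool.Agent.P.MP_6e3a57_lc.H
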