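import Pool.Agent.P.MP_6e3a57_lc.Game2
import Pool.Agent.P.MP_6e3a57_lc.H.Lang2

set_option autoImplicit false

/-!
The back-and-forth system between G u and G u'.
-/

namespace Pool.Agent.P.MP_6e3a57_lc.H

/-- The cell function of a tuple. -/
def cellOf {u : A} {ι : Type} (x : ι → G u) : Pt → Let ι := fun z => (u.1 z, fun i => (x i).f.1 z)

/-- The relation on tuples. -/
def RG (u u' : A) : Fam (G u) (G u') := fun N ι _ x y =>
  (∀ i, (x i).k = (y i).k ∧ (x i).q = (y i).q) ∧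
    ∃ a b a' b' : Let ι, Rel N a [cellOf x] b a' [cellOf y] b'

lemma RG_swap (u u' : A) : (RG u u').swap = RG u' u := by
  funext N ι _ y x
  apply propext
  constructor
  · rintro ⟨h1, a, b, a', b', h2⟩
    exact ⟨fun i => ⟨(h1 i).1.symm, (h1 i).2.symm⟩, _, _, _, _, h2.symm⟩
  · rintro ⟨h1, a, b, a', b', h2⟩
    exact ⟨fun i => ⟨(h1 i).1.symm, (h1 i).2.symm⟩, _, _, _, _, h2.symm⟩

/-- Adding one more coordinate. -/
def addc {ι : Type} : Let ι × ℤ →+ Let (Option ι) where
  toFun w := (w.1.1, fun o => o.elim w.2 w.1.2)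
  map_zero' := by
    refine Prod.ext rfl ?_
    funext o; cases o <;> rfl
  map_add' _ _ := by
    refine Prod.ext rfl ?_
    funext o; cases o <;> rfl

/-- The last coordinate. -/
def lastc {ι : Type} : Let (Option ι) →+ ℤ where
  toFun w := w.2 none
  map_zero' := rfl
  map_add' _ _ := rfl

lemma rel_le {u u' : A} {ι : Type} [Fintype ι] {x : ι → G u} {y : ι → G u'} {a b a' b' : Let ι}
    (h : Rel 3 a [cellOf x] b a' [cellOf y] b') (i j l : ι) (e1 e2 e3 : ℤ) (h1 : |e1| ≤ 1)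
    (h2 : |e2| ≤ 1) (h3 : |e3| ≤ 1)
    (hx : ∀ z, 0 ≤ e1 * (x i).f.1 z + e2 * (x j).f.1 z + e3 * (x l).f.1 z) (z : Pt) :
    0 ≤ e1 * (y i).f.1 z + e2 * (y j).f.1 z + e3 * (y l).f.1 z := by
  classical
  let c : ι → ℤ := Pi.single i e1 + Pi.single j e2 + Pi.single l e3
  have hs : ∀ (i m : ι) (e : ℤ), |e| ≤ 1 → |(Pi.single i e : ι → ℤ) m| ≤ 1 := by
    intro i m e he
    by_cases h : m = i
    · subst h; simpa using he
    · simp [h]
  have hc : Ht 3 c := by
    intro m
    have a1 := abs_le.mp (hs i m e1 h1)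
    have a2 := abs_le.mp (hs j m e2 h2)
    have a3 := abs_le.mp (hs l m e3 h3)
    simp only [c, Pi.add_apply, abs_le]
    push_cast
    omega
  have hd : ∀ w : Let ι, dotL c w = e1 * w.2 i + e2 * w.2 j + e3 * w.2 l := by
    intro w
    show dot c w.2 = _
    simp [dot, c, add_mul, Finset.sum_add_distrib, Pi.single_apply]
  have := h.nonneg hc (by
    intro f hf z
    rw [List.mem_singleton.mp hf, hd]
    exact hx z) _ (List.mem_singleton_self _) z
  rwa [hd] at this

theorem half_RG (u u' : A) : Half (RG u u') where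
  mono N N' ι _ x y hN h := by
    obtain ⟨h1, a, b, a', b', h2⟩ := h
    exact ⟨h1, _, _, _, _, h2.mono hN⟩
  forth N := by
    refine ⟨nxt N, fun ι _ x y h g => ?_⟩
    obtain ⟨h1, a, b, a', b', h2⟩ := h
    let g0 : Pt → Let (Option ι) := cellOf (fun o : Option ι => o.elim g x)
    have pl0 : PL g0 := by
      have := ((h2.basic.2.1 _ (List.mem_singleton_self _)).pair g.f.2).map addc
      convert this using 1
      funext z
      refine Prod.ext rfl ?_
      funext o; cases o <;> rfl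
    obtain ⟨c1, c2⟩ := chain_cons.mp h2.basic.1
    have c3 := chain_nil.mp c2
    have ea : pr (g0 (1, 0)) = a := c1
    have eb : pr (g0 (0, 1)) = b := c3
    obtain ⟨p', p1, p2⟩ := ApL.ext (N := N) (p := g0 (1, 0)) (a' := a') (ea ▸ h2.basic.2.2.1)
    obtain ⟨q', q1, q2⟩ := ApL.ext (N := N) (p := g0 (0, 1)) (a' := b') (eb ▸ h2.basic.2.2.2)
    obtain ⟨gs', e1, r⟩ := h2.ext [g0] _ _ p' q' rfl (by simpa using pl0)
      (Chain.cons _ _ _ (Chain.nil _)) ea p1 q1 p2 q2
    obtain ⟨g', gs, rfl, e2, e3⟩ := List.map_eq_cons_iff.mp e1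
    obtain rfl : gs = [] := List.map_eq_nil_iff.mp e3
    have pl' : PL g' := r.symm.basic.2.1 _ (List.mem_singleton_self _)
    have e4 : ∀ z, (g' z).1 = u'.1 z := fun z => congrArg Prod.fst (congrFun e2 z)
    have e5 : ∀ z i, (g' z).2 (some i) = (y i).f.1 z := fun z i =>
      congrFun (congrArg Prod.snd (congrFun e2 z)) i
    have ok : Ok u' g.q ⟨lastc ∘ g', pl'.map lastc⟩ := by
      obtain ⟨j, m, k1, k2⟩ := g.ok
      refine ⟨j, m, k1, fun z => ?_⟩
      have := r.cong none m (by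
        intro f hf z
        rw [List.mem_singleton.mp hf]
        exact k2 z) _ (List.mem_singleton_self _) z
      rwa [e4] at this
    refine ⟨⟨g.k, g.q, _, ok⟩, fun o => ?_, g0 (1, 0), g0 (0, 1), p', q', ?_⟩
    · cases o with
      | none => exact ⟨rfl, rfl⟩
      | some i => exact h1 i
    · convert r using 2
      funext z
      refine Prod.ext (e4 z).symm ?_
      funext o
      cases o with
      | none => rfl
      | some i => exact (e5 z i).symm
  mul := by
    refine ⟨3, fun ι _ x y h i j l e => ?_⟩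
    obtain ⟨h1, a, b, a', b', h2⟩ := h
    have ek := congrArg G.k e
    have eq := congrArg G.q e
    have ef : ∀ z, (x i).f.1 z + (x j).f.1 z = (x l).f.1 z := fun z =>
      congrFun (congrArg (fun g : G u => g.f.1) e) z
    refine G.ext ?_ ?_ ?_
    · rw [G.mul_k, ← (h1 i).1, ← (h1 j).1, ← (h1 l).1]; exact ek
    · rw [G.mul_q, ← (h1 i).1, ← (h1 i).2, ← (h1 j).2, ← (h1 l).2]; exact eq
    · apply Subtype.ext
      funext z
      have g1 := rel_le h2 i j l 1 1 (-1) (by simp) (by simp) (by simp)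
        (fun z => by have := ef z; omega) z
      have g2 := rel_le h2 i j l (-1) (-1) 1 (by simp) (by simp) (by simp)
        (fun z => by have := ef z; omega) z
      show (y i).f.1 z + (y j).f.1 z = (y l).f.1 z
      omega
  le := by
    refine ⟨3, fun ι _ x y h i j e => ?_⟩
    obtain ⟨h1, a, b, a', b', h2⟩ := h
    rcases e with e | ⟨e, ef⟩
    · left
      unfold G.Lt at *
      rw [← (h1 i).1, ← (h1 i).2, ← (h1 j).1, ← (h1 j).2]; exact e
    · right
      refine ⟨?_, fun z => ?_⟩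
      · unfold G.Sm at *
        rw [← (h1 i).1, ← (h1 i).2, ← (h1 j).1, ← (h1 j).2]; exact e
      · have g1 := rel_le h2 i j j (-1) 1 0 (by simp) (by simp) (by simp)
          (fun z => by
            have : (x i).f.1 z ≤ (x j).f.1 z := ef z
            omega) z
        show (y i).f.1 z ≤ (y j).f.1 z
        omega

/-- The first parameter, x + y. -/
def u0 : A := ⟨lin 1 1, PL.lin _ _⟩

lemma exists_u1 : ∃ u : A, u.1 ∘ cL = lin 1 4 ∧ (u.1 ∘ cR) ∘ cL = lin 4 9 ∧
    (u.1 ∘ cR) ∘ cR = lin 9 1 := by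
  obtain ⟨g, g1, g2⟩ := exists_glue (PL.lin (4 : ℤ) 9) (PL.lin 9 1) (by simp)
  have pg : PL g := PL.split (g1 ▸ PL.lin _ _) (g2 ▸ PL.lin _ _)
  obtain ⟨f, f1, f2⟩ := exists_glue (PL.lin (1 : ℤ) 4) pg (by simpa using congrFun g1 (1, 0))
  exact ⟨⟨f, PL.split (f1 ▸ PL.lin _ _) (f2 ▸ pg)⟩, f1, f2 ▸ g1, f2 ▸ g2⟩

/-- The second parameter, with values 1, 4, 9, 1 at (1,0), (1,1), (1,2), (0,1). -/
noncomputable def u1 : A := exists_u1.choose

lemma u1_L : u1.1 ∘ cL = lin 1 4 := exists_u1.choose_spec.1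
lemma u1_RL : (u1.1 ∘ cR) ∘ cL = lin 4 9 := exists_u1.choose_spec.2.1
lemma u1_RR : (u1.1 ∘ cR) ∘ cR = lin 9 1 := exists_u1.choose_spec.2.2

lemma strong_u0 : Dat.Strong u0 := fun z => by simp [u0, lin]

lemma strong_u1 : Dat.Strong u1 := by
  intro z
  rcases cover z with ⟨w, rfl⟩ | ⟨w, rfl⟩
  · have := congrFun u1_L w
    simp only [Function.comp, lin, nsmul_eq_mul] at this
    rw [this]
    simp only [cL]
    push_cast
    omega
  · rcases cover w with ⟨v, rfl⟩ | ⟨v, rfl⟩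
    · have := congrFun u1_RL v
      simp only [Function.comp, lin, nsmul_eq_mul] at this
      rw [this]
      simp only [cL, cR]
      push_cast
      omega
    · have := congrFun u1_RR v
      simp only [Function.comp, lin, nsmul_eq_mul] at this
      rw [this]
      simp only [cR]
      push_cast
      omega

lemma exists_kl (N : ℕ) : ∃ k l : ℤ, k ≡ 3 [ZMOD 11] ∧ l ≡ 8 [ZMOD 11] ∧ k * l ≡ 2 [ZMOD md N] := by
  obtain ⟨p, hp, pp, hm⟩ := Nat.forall_exists_prime_gt_and_modEq (11 * N.factorial) (q := 11)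
    (a := 3) (by norm_num) (by norm_num)
  have hco : Nat.Coprime p (11 * N.factorial) :=
    Nat.coprime_of_lt_prime (by have := N.factorial_pos; omega) hp pp
  obtain ⟨s, t, hst⟩ := Nat.isCoprime_iff_coprime.mpr hco
  have hk : (p : ℤ) ≡ 3 [ZMOD 11] := by exact_mod_cast Int.natCast_modEq_iff.mpr hm
  have h2 : (p : ℤ) * (2 * s) ≡ 2 [ZMOD md N] := by
    apply Int.ModEq.symm
    rw [Int.modEq_iff_dvd]
    refine ⟨-(2 * t), ?_⟩
    unfold md
    push_cast at hst
    linear_combination 2 * hst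
  refine ⟨p, 2 * s, hk, ?_, h2⟩
  have h3 := (hk.mul_right (2 * s)).symm.trans (h2.of_dvd (dvd_md N))
  unfold Int.ModEq at h3 ⊢
  omega

theorem init_RG (N : ℕ) : RG u0 u1 N Empty Empty.elim Empty.elim := by
  refine ⟨fun i => i.elim, ?_⟩
  obtain ⟨k, l, hk, hl, hkl⟩ := exists_kl N
  let L : ℤ → Let Empty := fun d => (d, Empty.elim)
  let φ : ℤ →+ Let Empty := AddMonoidHom.inl ℤ (Empty → ℤ)
  have hφ : ∀ d, φ d = L d := fun d => Prod.ext rfl (Subsingleton.elim _ _)
  have hcell : ∀ u : A, cellOf (Empty.elim : Empty → G u) = φ ∘ u.1 := by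
    intro u
    funext z
    exact Prod.ext rfl (Subsingleton.elim _ _)
  have lab : ∀ (σ : ℤ × ℤ) (d : ℤ), d ≡ σ.1 + σ.2 [ZMOD 11] →
      Lab N (L 1, L 1) (fun _ => 0) σ (L d) := by
    intro σ d h
    refine ⟨⟨by simpa [ap, L] using h, fun i => i.elim⟩, fun c _ => Or.inl ⟨rfl, ?_⟩⟩
    show dot c (L d).2 = 0
    simp [dot]
  have d0 : DCh N (L 1, L 1) (fun _ => 0) (1, 0) (L 1) [lin (L 1) (L 1)] (L 1) (0, 1) :=
    DCh.cons _ _ (0, 1) _ _ _ _ (lab _ _ (by decide)) (by simp [det])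
      (DCh.nil _ _ (lab _ _ (by decide)))
  have d1 : DCh N (L 1, L 1) (fun _ => 0) (1, 0) (L 1)
      [lin (L 1) (L 4), lin (L 4) (L 9), lin (L 9) (L 1)] (L 1) (0, 1) := by
    refine DCh.cons _ _ (k, 1) _ _ _ _ (lab _ _ (by decide)) (by simp [det]) ?_
    refine DCh.cons _ _ (1, l) _ _ _ _ (lab _ _ (hk.add_right 1).symm) ?_ ?_
    · have := hkl.sub_right 1
      simpa [det] using this
    · exact DCh.cons _ _ (0, 1) _ _ _ _ (lab _ _ (hl.add_left 1).symm) (by simp [det])
        (DCh.nil _ _ (lab _ _ (by decide)))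
  refine ⟨L 1, L 1, L 1, L 1, Rel.refine _ _ _ _ _ _ _ _ ?_ ?_
    (Rel.defect _ _ _ _ _ _ _ _ _ _ d0 d1 (by simp) (by simp))⟩
  · rw [hcell, show u0.1 = lin 1 1 from rfl, map_lin, hφ]
    exact Refines.refl _
  · rw [hcell]
    refine Refines.split _ _ _ ?_
    have e1 : (φ ∘ u1.1) ∘ cL = lin (L 1) (L 4) := by
      rw [Function.comp_assoc, u1_L, map_lin, hφ, hφ]
    have e2 : ((φ ∘ u1.1) ∘ cR) ∘ cL = lin (L 4) (L 9) := by
      rw [Function.comp_assoc φ, Function.comp_assoc φ, u1_RL, map_lin, hφ, hφ]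
    have e3 : ((φ ∘ u1.1) ∘ cR) ∘ cR = lin (L 9) (L 1) := by
      rw [Function.comp_assoc φ, Function.comp_assoc φ, u1_RR, map_lin, hφ, hφ]
    rw [e1]
    refine Refines.keep _ _ _ (Refines.split _ _ _ ?_)
    rw [e2, e3]
    exact Refines.refl _

theorem elem_equiv : @FirstOrder.Language.completeTheory LL (G u0) (lstr _) =
    @FirstOrder.Language.completeTheory LL (G u1) (lstr _) :=
  (half_RG u0 u1).equiv (by rw [RG_swap]; exact half_RG u1 u0) init_RG

end Pool.Agent.P.MP_6e3a57_lc.H
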