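import Pool.Agent.P.MP_6e3a57_lc.Inv
import Pool.Agent.P.MP_6e3a57_lc.H.Equiv2

set_option autoImplicit false

/-!
The groups G u0 and G u1 are not isomorphic.
-/

namespace Pool.Agent.P.MP_6e3a57_lc.H

lemma central_iota {u : A} (g : G u) (h : ∀ c, g * c = c * g) : ∃ f, g = iota u f := by
  have h1 := congrArg G.q (h (aG u))
  have h2 := congrArg G.q (h (tG u))
  simp only [G.mul_q, aG_q, aG_k, tG_q, tG_k, mul_one, zpow_zero, one_mul, mul_zero, add_zero,
    zpow_one, zero_add] at h1 h2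
  have h3 : (12 : ℚ) ^ g.k = 12 ^ (0 : ℤ) := by rw [zpow_zero]; linarith
  exact exists_iota g (zpow_right_injective₀ (by norm_num) (by norm_num) h3) (by linarith)

lemma exists_theta {u u' : A} (e : G u ≃*o G u') :
    ∃ (θ : A →+ A) (φ : Pt → Pt), PL (cst ∘ φ) ∧ (∀ f, e (iota u f) = iota u' (θ f)) ∧
      ∀ f z, (θ f).1 z = f.1 (φ z) := by
  choose θ hθ using fun f : A => central_iota (e (iota u f)) fun c => by
    obtain ⟨c, rfl⟩ : ∃ d, e d = c := e.surjective c
    rw [← map_mul, ← map_mul, iota_comm]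
  have hadd : ∀ f g, θ (f + g) = θ f + θ g := fun f g => iota_inj u' (by
    rw [← hθ, iota_add, map_mul, hθ, hθ, iota_add])
  let θ' : A →+ A := AddMonoidHom.mk' θ hadd
  have hinf : ∀ f g, θ' (f ⊓ g) = θ' f ⊓ θ' g := fun f g => iota_inj u' (by
    show iota u' (θ (f ⊓ g)) = iota u' (θ f ⊓ θ g)
    rw [← hθ, (isHom_iota u).inf, (isHom_iota u').inf, ← hθ, ← hθ]
    exact e.toOrderIso.map_inf _ _)
  have hpos : ∀ f, 0 ≤ f → ∀ z, 0 ≤ (θ' f).1 z := by
    intro f hf
    have := hinf 0 f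
    rw [inf_eq_left.mpr hf, map_zero] at this
    exact inf_eq_left.mp this.symm
  have hx := hpos xA (fun z => by simp)
  have hy := hpos yA (fun z => by simp)
  let φ : Pt → Pt := fun z => (((θ' xA).1 z).toNat, ((θ' yA).1 z).toNat)
  have e1 : ∀ z, ((φ z).1 : ℤ) = (θ' xA).1 z := fun z => Int.toNat_of_nonneg (hx z)
  have e2 : ∀ z, ((φ z).2 : ℤ) = (θ' yA).1 z := fun z => Int.toNat_of_nonneg (hy z)
  refine ⟨θ', φ, ?_, hθ, fun f z => ?_⟩
  · convert PL.pair (θ' xA).2 (θ' yA).2 using 1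
    funext z
    exact Prod.ext (e1 z) (e2 z)
  · have h1 := (ev_self f).map ((evA z).comp θ') (fun a b => by
      show (θ' (a ⊓ b)).1 z = _
      rw [hinf]; rfl)
    have h2 := ev_int f.2 (φ z)
    rw [e1, e2] at h2
    exact h1.unique h2

lemma pow_kf2 {u : A} (g : G u) (n : ℕ) : (g ^ n).f = n • g.f := by
  induction n with
  | zero => simp
  | succ n ih => rw [pow_succ, G.mul_f, ih, succ_nsmul]

/-- Reduction mod 11. -/
def red : ℤ →+ ZMod 11 := Int.castAddHom _

lemma hasW_u0 : HasW (red ∘ u0.1) 0 := by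
  rw [show u0.1 = lin 1 1 from rfl, map_lin]
  exact HasW.lin _ _

lemma hasW_u1 : HasW (red ∘ u1.1) (-5) := by
  have h1 : HasW ((red ∘ u1.1) ∘ cL) (-1) := by
    rw [Function.comp_assoc, u1_L, map_lin]
    exact HasW.lin _ _
  have h2 : HasW (((red ∘ u1.1) ∘ cR) ∘ cL) (-2) := by
    rw [Function.comp_assoc red, Function.comp_assoc red, u1_RL, map_lin]
    exact HasW.lin _ _
  have h3 : HasW (((red ∘ u1.1) ∘ cR) ∘ cR) (-2) := by
    rw [Function.comp_assoc red, Function.comp_assoc red, u1_RR, map_lin]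
    exact HasW.lin _ _
  exact HasW.split _ _ _ h1 (HasW.split _ _ _ h2 h3)

theorem not_iso : ¬ Nonempty (G u0 ≃*o G u1) := by
  rintro ⟨e⟩
  obtain ⟨θ, φ, hφ, h1, h2⟩ := exists_theta e
  obtain ⟨θ', ψ, hψ, h1', h2'⟩ := exists_theta e.symm
  have i1 : ∀ f, θ' (θ f) = f := fun f => iota_inj u0 (by rw [← h1', ← h1, e.symm_apply_apply])
  have i2 : ∀ f, θ (θ' f) = f := fun f => iota_inj u1 (by rw [← h1, ← h1', e.apply_symm_apply])
  have j1 : ∀ z, φ (ψ z) = z := by
    intro z
    apply cst_inj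
    have a1 := congrFun (congrArg Subtype.val (i1 xA)) z
    have a2 := congrFun (congrArg Subtype.val (i1 yA)) z
    rw [h2', h2] at a1 a2
    simp only [xA_apply, yA_apply] at a1 a2
    exact Prod.ext a1 a2
  have j2 : ∀ z, ψ (φ z) = z := by
    intro z
    apply cst_inj
    have a1 := congrFun (congrArg Subtype.val (i2 xA)) z
    have a2 := congrFun (congrArg Subtype.val (i2 yA)) z
    rw [h2, h2'] at a1 a2
    simp only [xA_apply, yA_apply] at a1 a2
    exact Prod.ext a1 a2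
  have hw := hasW_zero hφ hψ j2 j1 hasW_u0
  have r := congrArg (fun g => (e g).f) (rel_ta u0)
  simp only [map_mul, map_inv, map_pow, G.mul_f, G.inv_f, h1, iota_f, pow_kf2] at r
  have r2 : ∀ z, (θ u0).1 z = (e (aG u0)).f.1 z := by
    intro z
    have := congrFun (congrArg Subtype.val r) z
    simp only [AddSubgroup.coe_add, Pi.add_apply, NegMemClass.coe_neg, Pi.neg_apply,
      AddSubgroupClass.coe_zsmul, AddSubmonoidClass.coe_nsmul, Pi.smul_apply, smul_eq_mul,
      nsmul_eq_mul] at this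
    push_cast at this
    omega
  obtain ⟨j, m, -, hm⟩ := (e (aG u0)).ok
  have r3 : (red ∘ u0.1) ∘ φ = fun z => (m : ZMod 11) * (red ∘ u1.1) z := by
    funext z
    have := (ZMod.intCast_eq_intCast_iff _ _ 11).mpr (hm z)
    rw [← r2, h2] at this
    push_cast at this
    exact this
  have hm0 : (m : ZMod 11) ≠ 0 := by
    intro h0
    have := congrFun r3 (ψ (1, 0))
    rw [h0, zero_mul, Function.comp_apply, j1] at this
    revert this
    decide
  rw [r3] at hw
  exact absurd (hw.unique (hasW_u1.smul hm0)) (by decide)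

end Pool.Agent.P.MP_6e3a57_lc.H
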