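import Pool.Agent.P.MP_6e3a57_lc.H.Defs

/-!
Quotients: the free lattice-ordered group and the quotient by an ideal.
-/

namespace Pool.Agent.P.MP_6e3a57_lc.H

open FirstOrder FirstOrder.Language

/-- Operations that satisfy the axioms up to a congruence. -/
structure Pre : Type 1 where
  T : Type
  mul : T → T → T
  inv : T → T
  one : T
  sup : T → T → T
  inf : T → T → T
  r : Setoid T
  cmul : ∀ a a' b b', r a a' → r b b' → r (mul a b) (mul a' b')
  cinv : ∀ a a', r a a' → r (inv a) (inv a')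
  csup : ∀ a a' b b', r a a' → r b b' → r (sup a b) (sup a' b')
  cinf : ∀ a a' b b', r a a' → r b b' → r (inf a b) (inf a' b')
  a1 : ∀ a b c, r (mul (mul a b) c) (mul a (mul b c))
  a2 : ∀ a, r (mul one a) a
  a3 : ∀ a, r (mul (inv a) a) one
  a4 : ∀ a b, r (sup a b) (sup b a)
  a5 : ∀ a b c, r (sup (sup a b) c) (sup a (sup b c))
  a6 : ∀ a b, r (inf a b) (inf b a)
  a7 : ∀ a b c, r (inf (inf a b) c) (inf a (inf b c))
  a8 : ∀ a b, r (sup a (inf a b)) a
  a9 : ∀ a b, r (inf a (sup a b)) a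
  a10 : ∀ a b c, r (sup (mul c a) (mul c b)) (mul c (sup a b))
  a11 : ∀ a b c, r (sup (mul a c) (mul b c)) (mul (sup a b) c)

namespace Pre

variable (P : Pre)

/-- The quotient set. -/
def Q : Type := Quotient P.r

/-- The class of an element. -/
def cl (a : P.T) : P.Q := Quotient.mk P.r a

theorem mk_eq {a b : P.T} : P.cl a = P.cl b ↔ P.r a b := Quotient.eq

theorem mk_surj : Function.Surjective P.cl := Quotient.mk_surjective

instance : Mul P.Q := ⟨Quotient.map₂ P.mul fun _ _ h _ _ h' => P.cmul _ _ _ _ h h'⟩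
instance : Inv P.Q := ⟨Quotient.map P.inv fun _ _ h => P.cinv _ _ h⟩
instance : One P.Q := ⟨P.cl P.one⟩

instance : Group P.Q := Group.ofLeftAxioms
  (fun a b c => Quotient.inductionOn₃ a b c fun a b c => Quotient.sound (P.a1 a b c))
  (fun a => Quotient.inductionOn a fun a => Quotient.sound (P.a2 a))
  (fun a => Quotient.inductionOn a fun a => Quotient.sound (P.a3 a))

/-- The join. -/
@[reducible] def mx : Max P.Q := ⟨Quotient.map₂ P.sup fun _ _ h _ _ h' => P.csup _ _ _ _ h h'⟩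

/-- The meet. -/
@[reducible] def mn : Min P.Q := ⟨Quotient.map₂ P.inf fun _ _ h _ _ h' => P.cinf _ _ _ _ h h'⟩

instance : Lattice P.Q := @Lattice.mk' _ P.mx P.mn
  (fun a b => Quotient.inductionOn₂ a b fun a b => Quotient.sound (P.a4 a b))
  (fun a b c => Quotient.inductionOn₃ a b c fun a b c => Quotient.sound (P.a5 a b c))
  (fun a b => Quotient.inductionOn₂ a b fun a b => Quotient.sound (P.a6 a b))
  (fun a b c => Quotient.inductionOn₃ a b c fun a b c => Quotient.sound (P.a7 a b c))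
  (fun a b => Quotient.inductionOn₂ a b fun a b => Quotient.sound (P.a8 a b))
  (fun a b => Quotient.inductionOn₂ a b fun a b => Quotient.sound (P.a9 a b))

theorem mk_mul (a b : P.T) : P.cl (P.mul a b) = P.cl a * P.cl b := rfl
theorem mk_inv (a : P.T) : P.cl (P.inv a) = (P.cl a)⁻¹ := rfl
theorem mk_one : P.cl P.one = 1 := rfl
theorem mk_sup (a b : P.T) : P.cl (P.sup a b) = P.cl a ⊔ P.cl b := rfl
theorem mk_inf (a b : P.T) : P.cl (P.inf a b) = P.cl a ⊓ P.cl b := rfl

instance : MulLeftMono P.Q :=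
  ⟨fun c a b h => by
    have e : c * a ⊔ c * b = c * (a ⊔ b) :=
      Quotient.inductionOn₃ a b c fun a b c => Quotient.sound (P.a10 a b c)
    rw [← sup_eq_right] at h ⊢
    rw [e, h]⟩

instance : MulRightMono P.Q :=
  ⟨fun c a b h => by
    have e : a * c ⊔ b * c = (a ⊔ b) * c :=
      Quotient.inductionOn₃ a b c fun a b c => Quotient.sound (P.a11 a b c)
    change a * c ≤ b * c
    rw [← sup_eq_right] at h ⊢
    rw [e, h]⟩

/-- The quotient as a lattice-ordered group. -/
def lg : LG := ⟨P.Q⟩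

end Pre

section terms

variable {α : Type}

/-- A binary symbol applied to two terms. -/
def t2 (f : Fn 2) (s t : Lg.Term α) : Lg.Term α := Term.func (L := Lg) f ![s, t]

/-- The inverse of a term. -/
def t1 (s : Lg.Term α) : Lg.Term α := Term.func (L := Lg) Fn.inv ![s]

/-- The unit. -/
def t0 : Lg.Term α := Term.func (L := Lg) Fn.one ![]

variable {K : LG} (v : α → K.α) (s t : Lg.Term α)

@[simp] theorem rz_mul : (t2 .mul s t).realize v = s.realize v * t.realize v := rfl
@[simp] theorem rz_sup : (t2 .sup s t).realize v = s.realize v ⊔ t.realize v := rfl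
@[simp] theorem rz_inf : (t2 .inf s t).realize v = s.realize v ⊓ t.realize v := rfl
@[simp] theorem rz_inv : (t1 s).realize v = (s.realize v)⁻¹ := rfl
@[simp] theorem rz_one : (t0 : Lg.Term α).realize v = 1 := rfl

theorem IsLHom.realize {F G : LG} {φ : F.α →* G.α} (h : IsLHom φ) (v : α → F.α) (t : Lg.Term α) :
    φ (t.realize v) = t.realize (φ ∘ v) := by
  induction t with
  | var a => rfl
  | func f ts ih =>
    cases f with
    | mul => exact (map_mul φ _ _).trans (congrArg₂ (· * ·) (ih 0) (ih 1))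
    | inv => exact (map_inv φ _).trans (congrArg (·⁻¹) (ih 0))
    | one => exact map_one φ
    | sup => exact (h _ _).1.trans (congrArg₂ (· ⊔ ·) (ih 0) (ih 1))
    | inf => exact (h _ _).2.trans (congrArg₂ (· ⊓ ·) (ih 0) (ih 1))

end terms

/-- Terms up to equality in all lattice-ordered groups. -/
def freePre (α : Type) : Pre where
  T := Lg.Term α
  mul := t2 .mul
  inv := t1
  one := t0
  sup := t2 .sup
  inf := t2 .inf
  r := ⟨fun s t => ∀ (K : LG) (v : α → K.α), s.realize v = t.realize v,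
    fun _ _ _ => rfl, fun h K v => (h K v).symm, fun h h' K v => (h K v).trans (h' K v)⟩
  cmul a a' b b' h h' K v := by simp only [rz_mul, h K v, h' K v]
  cinv a a' h K v := by simp only [rz_inv, h K v]
  csup a a' b b' h h' K v := by simp only [rz_sup, h K v, h' K v]
  cinf a a' b b' h h' K v := by simp only [rz_inf, h K v, h' K v]
  a1 a b c K v := mul_assoc _ _ _
  a2 a K v := one_mul _
  a3 a K v := inv_mul_cancel _
  a4 a b K v := sup_comm _ _
  a5 a b c K v := sup_assoc _ _ _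
  a6 a b K v := inf_comm _ _
  a7 a b c K v := inf_assoc _ _ _
  a8 a b K v := sup_inf_self
  a9 a b K v := inf_sup_self
  a10 a b c K v := (mul_sup _ _ _).symm
  a11 a b c K v := (sup_mul _ _ _).symm

theorem free_realize {α : Type} (t : Lg.Term α) :
    t.realize (M := (freePre α).lg.α) (fun a => (freePre α).cl (Term.var a)) = (freePre α).cl t := by
  induction t with
  | var a => rfl
  | func f ts ih =>
    have e2 : ∀ ts : Fin 2 → Lg.Term α, ts = ![ts 0, ts 1] := fun ts => by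
      funext i; fin_cases i <;> rfl
    have e1 : ∀ ts : Fin 1 → Lg.Term α, ts = ![ts 0] := fun ts => by
      funext i; fin_cases i; rfl
    cases f with
    | mul => rw [e2 ts]; exact congrArg₂ (· * ·) (ih 0) (ih 1)
    | inv => rw [e1 ts]; exact congrArg (·⁻¹) (ih 0)
    | one => rw [Subsingleton.elim ts (![])]; rfl
    | sup => rw [e2 ts]; exact congrArg₂ (· ⊔ ·) (ih 0) (ih 1)
    | inf => rw [e2 ts]; exact congrArg₂ (· ⊓ ·) (ih 0) (ih 1)

theorem isFree (n : ℕ) :
    IsFree (freePre (Fin n)).lg fun i => (freePre (Fin n)).cl (Term.var i) := by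
  intro K h
  let φ : (freePre (Fin n)).lg.α →* K.α := MonoidHom.mk'
    (Quotient.lift (fun t : Lg.Term (Fin n) => t.realize h) fun _ _ e => e K h)
    fun a b => Quotient.inductionOn₂ a b fun _ _ => rfl
  have hφ : IsLHom φ := fun a b => Quotient.inductionOn₂ a b fun _ _ => ⟨rfl, rfl⟩
  refine ⟨φ, ⟨hφ, fun _ => rfl⟩, fun ψ hψ => MonoidHom.ext fun a => ?_⟩
  obtain ⟨t, rfl⟩ := (freePre (Fin n)).mk_surj a
  rw [← free_realize, hψ.1.realize, hφ.realize]
  exact congrArg (fun v => Term.realize v t) (funext hψ.2)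

section ideal

variable {F : LG} {I : Subgroup F.α}

theorem IsIdeal.sup_left (hI : IsIdeal I) {a a' : F.α} (h : a⁻¹ * a' ∈ I) (b : F.α) :
    (a ⊔ b)⁻¹ * (a' ⊔ b) ∈ I := by
  obtain ⟨h1, h2⟩ := hI.2.1 _ h 1 I.one_mem
  refine hI.2.2 _ h2 _ h1 _ ?_ ?_
  · rw [le_inv_mul_iff_mul_le, sup_mul]
    refine sup_le_sup ?_ ?_
    · rw [← le_inv_mul_iff_mul_le]; exact inf_le_left
    · exact mul_le_of_le_one_right' inf_le_right
  · rw [inv_mul_le_iff_le_mul]
    refine sup_le ?_ ?_
    · calc a' = a * (a⁻¹ * a') := by group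
        _ ≤ _ := mul_le_mul' le_sup_left le_sup_left
    · calc b = b * 1 := (mul_one b).symm
        _ ≤ _ := mul_le_mul' le_sup_right le_sup_right

theorem IsIdeal.csup (hI : IsIdeal I) {a a' b b' : F.α} (h : a⁻¹ * a' ∈ I) (h' : b⁻¹ * b' ∈ I) :
    (a ⊔ b)⁻¹ * (a' ⊔ b') ∈ I := by
  have := I.mul_mem (hI.sup_left h b) (hI.sup_left h' a')
  rwa [sup_comm b, sup_comm b', mul_assoc, mul_inv_cancel_left] at this

theorem IsIdeal.cinv (hI : IsIdeal I) {a a' : F.α} (h : a⁻¹ * a' ∈ I) : a⁻¹⁻¹ * a'⁻¹ ∈ I := by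
  have := hI.1.conj_mem _ (I.inv_mem h) a
  rwa [show a * (a⁻¹ * a')⁻¹ * a⁻¹ = a⁻¹⁻¹ * a'⁻¹ by group] at this

/-- The congruence given by an ideal. -/
def idPre (hI : IsIdeal I) : Pre where
  T := F.α
  mul := (· * ·)
  inv := (·⁻¹)
  one := 1
  sup := (· ⊔ ·)
  inf := (· ⊓ ·)
  r := ⟨fun a b => a⁻¹ * b ∈ I, fun a => by simp [I.one_mem],
    fun h => by simpa using I.inv_mem h, fun h h' => by simpa [mul_assoc] using I.mul_mem h h'⟩
  cmul a a' b b' h h' := by
    have := I.mul_mem (hI.1.conj_mem _ h b⁻¹) h'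
    rwa [show b⁻¹ * (a⁻¹ * a') * b⁻¹⁻¹ * (b⁻¹ * b') = (a * b)⁻¹ * (a' * b') by group] at this
  cinv a a' h := hI.cinv h
  csup a a' b b' h h' := hI.csup h h'
  cinf a a' b b' h h' := by
    have := hI.cinv (hI.csup (hI.cinv h) (hI.cinv h'))
    rwa [← inv_inf, ← inv_inf, inv_inv (a ⊓ b), inv_inv (a' ⊓ b')] at this
  a1 a b c := by rw [mul_assoc]
  a2 a := by rw [one_mul]
  a3 a := by rw [inv_mul_cancel]
  a4 a b := by rw [sup_comm]
  a5 a b c := by rw [sup_assoc]
  a6 a b := by rw [inf_comm]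
  a7 a b c := by rw [inf_assoc]
  a8 a b := by rw [sup_inf_self]
  a9 a b := by rw [inf_sup_self]
  a10 a b c := by rw [mul_sup]
  a11 a b c := by rw [sup_mul]

theorem isIdeal_sInf (S : Set (Subgroup F.α)) (h : ∀ I ∈ S, IsIdeal I) : IsIdeal (sInf S) := by
  refine ⟨⟨fun a ha g => ?_⟩, fun a ha b hb => ⟨?_, ?_⟩, fun a ha c hc b h1 h2 => ?_⟩ <;>
    rw [Subgroup.mem_sInf] at *
  · exact fun I hI => (h I hI).1.conj_mem a (ha I hI) g
  · exact fun I hI => ((h I hI).2.1 a (ha I hI) b (hb I hI)).1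
  · exact fun I hI => ((h I hI).2.1 a (ha I hI) b (hb I hI)).2
  · exact fun I hI => (h I hI).2.2 a (ha I hI) c (hc I hI) b h1 h2

theorem IsLHom.isIdeal {G : LG} {π : F.α →* G.α} (h : IsLHom π) : IsIdeal π.ker := by
  refine ⟨inferInstance, fun a ha b hb => ?_, fun a ha c hc b h1 h2 => ?_⟩ <;>
    simp only [MonoidHom.mem_ker] at *
  · rw [(h a b).1, (h a b).2, ha, hb]
    exact ⟨sup_idem _, inf_idem _⟩
  · have e1 := (h a b).1
    have e2 := (h b c).1
    rw [sup_eq_right.2 h1, ha] at e1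
    rw [sup_eq_right.2 h2, hc] at e2
    exact le_antisymm (sup_eq_right.1 e2.symm) (sup_eq_right.1 e1.symm)

end ideal

/-- The universal property of a presentation gives the presentation as a quotient. -/
theorem finPres_of_univ (G : LG) {n m : ℕ} (g : Fin n → G.α)
    (r : Fin m → Lg.Term (Fin n) × Lg.Term (Fin n))
    (h1 : ∀ j, (r j).1.realize g = (r j).2.realize g)
    (h2 : ∀ (K : LG) (h : Fin n → K.α), (∀ j, (r j).1.realize h = (r j).2.realize h) →
      ∃! φ : G.α →* K.α, IsLHom φ ∧ ∀ i, φ (g i) = h i) : FinPres G := by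
  classical
  let F := (freePre (Fin n)).lg
  let x : Fin n → F.α := fun i => (freePre (Fin n)).cl (Term.var i)
  have hF : IsFree F x := isFree n
  obtain ⟨π, ⟨p1, p2⟩, -⟩ := hF G g
  let R : Finset F.α := Finset.univ.image fun j => ((r j).1.realize x)⁻¹ * (r j).2.realize x
  let I : Subgroup F.α := sInf {I | IsIdeal I ∧ (R : Set F.α) ⊆ I}
  have hI : IsIdeal I := isIdeal_sInf _ fun _ h => h.1
  have hle : I ≤ π.ker := sInf_le ⟨p1.isIdeal, fun a ha => by
    obtain ⟨j, -, rfl⟩ := Finset.mem_image.1 ha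
    change π _ = 1
    rw [map_mul, map_inv, p1.realize, p1.realize, show π ∘ x = g from funext p2, h1,
      inv_mul_cancel]⟩
  let q : F.α →* (idPre hI).lg.α := MonoidHom.mk' (idPre hI).cl fun _ _ => rfl
  have hq : IsLHom q := fun _ _ => ⟨rfl, rfl⟩
  obtain ⟨ψ, ⟨s1, s2⟩, -⟩ := h2 (idPre hI).lg (q ∘ x) fun j => by
    rw [← hq.realize, ← hq.realize]
    exact (idPre hI).mk_eq.2 (Subgroup.mem_sInf.2 fun J hJ =>
      hJ.2 (Finset.mem_image.2 ⟨j, Finset.mem_univ _, rfl⟩))
  let ρ : (idPre hI).lg.α →* G.α := MonoidHom.mk'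
    (Quotient.lift π fun a b e => by
      have := hle e
      rwa [MonoidHom.mem_ker, map_mul, map_inv, inv_mul_eq_one] at this)
    fun a b => Quotient.inductionOn₂ a b fun a b : F.α => map_mul π a b
  have hρ : IsLHom ρ := fun a b => Quotient.inductionOn₂ a b fun a b => p1 a b
  have comp : ∀ {A B C : LG} {f : A.α →* B.α} {g : B.α →* C.α}, IsLHom f → IsLHom g →
      IsLHom (g.comp f) := fun hf hg a b => by
    simp only [MonoidHom.comp_apply, (hf a b).1, (hf a b).2]
    exact ⟨(hg _ _).1, (hg _ _).2⟩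
  have e1 : ρ.comp ψ = MonoidHom.id G.α := (h2 G g h1).unique
    ⟨comp s1 hρ, fun i => by rw [MonoidHom.comp_apply, s2]; exact p2 i⟩
    ⟨fun _ _ => ⟨rfl, rfl⟩, fun _ => rfl⟩
  have e2 : ψ.comp π = q := (hF (idPre hI).lg (q ∘ x)).unique
    ⟨comp p1 s1, fun i => by rw [MonoidHom.comp_apply, p2, s2]⟩ ⟨hq, fun _ => rfl⟩
  refine ⟨n, F, x, R, π, hF, p1, fun a => ?_, le_antisymm (fun a ha => ?_) hle⟩
  · obtain ⟨b, hb⟩ := (idPre hI).mk_surj (ψ a)
    refine ⟨b, ?_⟩
    have := DFunLike.congr_fun e1 a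
    rw [MonoidHom.comp_apply, ← hb] at this
    exact this
  · have := DFunLike.congr_fun e2 a
    rw [MonoidHom.comp_apply, MonoidHom.mem_ker.1 ha, map_one] at this
    have h3 : (1 : F.α)⁻¹ * a ∈ I := (idPre hI).mk_eq.1 this
    rwa [inv_one, one_mul] at h3

end Pool.Agent.P.MP_6e3a57_lc.H
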